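import Pool.Agent.N19.BR.TDefs
import Pool.Agent.N19.BR.Tate

/-!
# Tate's conjecture on the pole over all number fields: reduction to fields with at most two real places,
cyclic Galois action and large local degrees

`K` is a number field, `L` a finite Galois extension of `K`, for example one over which all elements of
`NS(X)` are defined, and `S` a finite set of primes of `K`, for example the primes of bad reduction.
`X` is a smooth projective variety over `K` and `V` the space of the classes of the algebraic cycles of
codimension `m` defined over the algebraic closure; for `m = 1`, the question, it is `NS(X) ⊗ ℚ`.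

The proof.  Relations between permutation characters give relations between the defects (library
`W353.TD`, see `MP_058a58_ag/TateRelations`).  The new point is the existence of relations with
conditions at finitely many primes and at the real places (`Pool.Agent.N19.BR`, see the comments in
`MP_cd906c_nt/TwoRealPlacesCyclic`).
The definitions are in `Pool.Agent.N19.BR.TDefs`, `Pool.Agent.N19.BR.Defs`, `Pool.Agent.W353.TD.Defs` and
`Pool.Agent.W353.EF.Defs`.
-/

set_option autoImplicit false

namespace Pool.Agent.Results.MP_1f4fc7_nt.CyclicTwoRealPlaces

open NumberField IsDedekindDomain Pool.Agent.N19.BR.TDef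

/-- **Reduction of Tate's conjecture on the pole.**  Let `L/K` be a finite Galois extension of number
fields, `S` a finite set of primes of `K` and `k ≥ 1`.  There is a list of number fields `F_i ⊇ K` such
that `L F_i / F_i` is cyclic, `k` divides the local degrees of `F_i / K` at all primes above `S`, `F_i` has at
most two real places, and such that for ALL varieties `X` over `K`, of any dimension `d`, and all
`m ≤ d` (`m = 1` for the Néron–Severi group), the values `x_i(ε)`, `x(ε)` of
`log |L(m + 1 + ε)| / log(1/ε)`, for `L(H^{2m}(X), s)` over `F_i` and over `K`, satisfy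
* `∑ e_i (x_i(ε) - rank F_i) - c (x(ε) - rank K) → 0` as `ε → 0+`, with integers `e_i` and `c ≥ 1` that do
  not depend on `X` (no continuation is assumed);
* if Tate's conjecture on the pole holds over all `F_i`, then it holds over `K`; more generally, if there
  are defects `δ_i` over the fields `F_i`, then `x(ε)` tends to `rank K - ∑ e_i δ_i / c`. -/
theorem result (K : Type) [Field K] [NumberField K] (L : Type) [Field L] [NumberField L]
    [Algebra K L] [IsGalois K L] (S : Set (HeightOneSpectrum (𝓞 K))) (hS : S.Finite) (k : ℕ)
    (hk : k ≠ 0) :
    ∃ Y : FieldList K, Special L S k Y ∧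
      ∀ (n d m N : ℕ) (X : Set (MvPolynomial (Fin n) (𝓞 K))) (V : Type) [AddCommGroup V]
        [Module ℚ V] [FiniteDimensional ℚ V]
        (ρ : Representation ℚ Gal(AlgebraicClosure K/K) V), m ≤ d →
        Pool.Agent.W353.TD.IsPart X d m N ρ →
        ValuesRelated X d m N ρ Y ∧ DefectsRelated X d m N ρ Y := by
  obtain ⟨r, Z, e, c, hc, hrel, hZ⟩ := Pool.Agent.N19.BR.list_cyclic K L hS hk
  refine ⟨⟨r, fun i => Pool.Agent.N19.BR.img (Z i), fun i => Pool.Agent.N19.BR.img_nf (Z i), e, c, hc⟩,
    fun i => Pool.Agent.N19.BR.img_prop (Z i) (hZ i), ?_⟩
  intro n d m N X V _ _ _ ρ hm hV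
  refine ⟨?_, ?_⟩
  · intro _ B B₀ hB hB₀
    exact Pool.Agent.N19.BR.size_rel hrel hm hV B B₀ hB hB₀
  · intro δ hδ _ B₀ hB₀
    exact Pool.Agent.N19.BR.defect_rel hc hrel hm hV hδ B₀ hB₀

end Pool.Agent.Results.MP_1f4fc7_nt.CyclicTwoRealPlaces
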