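import Pool.Agent.N172.HS.Sp

/-!
# Tate's conjecture on the pole with coefficients in the representations of the Weil group

`X` is a smooth projective variety over a number field `K`, for example over `K = ℚ`, and `ρ` runs
through ALL finite-dimensional unitary representations of the Weil group of `K`: the Hecke characters
of `K` (of finite or infinite order, for example those of CM motives, and `N^{iτ}`), the Artin
representations, the representations induced from Hecke characters of extension fields `F` of `K`.  The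
`L`-functions `L(H^i(X) ⊗ ρ, s)` include those of `X` over all number fields `F ⊇ K`, at all points of
the line `Re s = i/2 + 1`, and the pieces of the `L`-functions of the products of `X` with varieties of
CM type.  For `i = 2m` let `V` be the space of the classes of the algebraic cycles of codimension `m`
on `X` over the algebraic closure, or a part of it which is stable under the Galois group; Tate's
conjecture predicts for `L(H^{2m}(X) ⊗ ρ, s)` at `s = m + 1` a pole of order `dim Hom(ρ, V)` for
irreducible `ρ`.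

The definitions are in `Pool.Agent.N172.HS` (`Defs`, `Gr`, `Rep`, `Pa`), `Pool.Agent.Y149.Ord` and
`Pool.Agent.W353.EF.Defs`:

* `Variety K`: projective varieties with given equations, dimension and Betti numbers whose Frobenius
  eigenvalues (from the numbers of points) exist at almost all primes;
* `WRep K`: virtual representations `∑ c_j Ind χ_j` with unitary Hecke characters `χ_j` of finite
  extensions `F_j` of `K` (`IsHecke`) and integers `c_j`; by the theorem of Brauer all unitary
  representations of the Weil group are of this kind;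
* `ρ.trace v`: the trace of the Frobenius at `v`; `ρ.inner σ`: the inner product of the characters, by
  the formula of Mackey; `ρ.IsIrr`: `ρ.inner ρ = 1`, that is, `ρ` is irreducible;
* `IsPart X i θ N'`: `H^i(X) = θ(-i/2) ⊕ H'` with `dim H' = N'`, in terms of the traces of Frobenius; for
  example `θ = 0` and `N' = dim H^i(X)`, or `i = 2m`, `θ = V` and `N' = dim H^{2m}(X) - dim V`;
* `IsTensor X i ρ B`: the polynomials `B v` are the Euler factors of `L(H^i(X) ⊗ ρ, s)`;
* `size i B ε = log |L(i/2 + 1 + ε)| / log(1/ε)`; `HasOrder i B r`: `ε^{-r} L(i/2 + 1 + ε)` has a finite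
  nonzero limit as `ε → 0⁺`, so that `ord_{s = i/2+1} L(s) = r` in the sense of the problem.

The proof contains the analytic continuation of the `L`-functions of all unitary Hecke characters of
number fields to a neighbourhood of `s = 1` and their non-vanishing at `s = 1`; for quadratic
characters the latter is in `Pool.Agent.N134.HS.Nvq` (by the team member helper134).
-/

set_option autoImplicit false

namespace Pool.Agent.Results.MP_1f4fc7_nt.HeckeSpectrum

open NumberField IsDedekindDomain Filter Topology Polynomial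
open Pool.Agent.W353.EF (LFun size)
open Pool.Agent.Y149.Ord (HasOrder)
open Pool.Agent.N172.HS

/-- **Tate's pole conjecture with coefficients, with finitely many exceptions.**  Let `X` be a variety
over the number field `K` and `H^i(X) = θ(-i/2) ⊕ H'` with `dim H' = N'`, for example `i = 2m`, `θ` the
space of the algebraic cycles and `N' = dim H^{2m}(X) - dim θ`.  No analytic continuation is assumed.
1. Let `ρ_1, …, ρ_n` be (virtual) unitary representations of the Weil group of `K` and `c_k` real.  For
every `η > 0` and all small `ε > 0` the `L(H^i(X) ⊗ ρ_k)` are not zero at `i/2 + 1 + ε` and the square of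
`∑ c_k (size of L(H^i(X) ⊗ ρ_k) - ⟨ρ_k, θ⟩)` is at most `N'² ∑ c_k c_l ⟨ρ_k, ρ_l⟩ + η`.  If the orders
`r_k` at `s = i/2 + 1` exist, the square of `∑ c_k (r_k + ⟨ρ_k, θ⟩)` is at most
`N'² ∑ c_k c_l ⟨ρ_k, ρ_l⟩`; for irreducible `ρ_k`, no two of them isomorphic, and
`c_k = r_k + ⟨ρ_k, θ⟩` this is `∑ (r_k + ⟨ρ_k, θ⟩)² ≤ N'²`.
2. For `0 < δ < 1` there is a set of at most `N'² / δ²` irreducible representations (of at most `N'²` for
`δ` close to `1`) such that for all other irreducible `ρ` the size of `L(H^i(X) ⊗ ρ)` differs from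
`⟨ρ, θ⟩` by less than `δ` for arbitrarily small `ε > 0`, and the order at `s = i/2 + 1` is `- ⟨ρ, θ⟩` if
it exists. -/
theorem result (K : Type) [Field K] [NumberField K] (X : Variety K) (i : ℕ) (hi : i ≤ 2 * X.dim)
    (θ : WRep K) (N' : ℕ) (hθ : IsPart X i θ N') :
    (∀ (n : ℕ) (ρ : Fin n → WRep K) (B : Fin n → HeightOneSpectrum (𝓞 K) → ℂ[X]),
      (∀ k, IsTensor X i (ρ k) (B k)) → ∀ c : Fin n → ℝ,
      (∀ η : ℝ, 0 < η → ∀ᶠ ε : ℝ in 𝓝[>] 0,
        (∀ k, LFun (B k) ((i : ℂ) / 2 + 1 + ε) ≠ 0) ∧
        (∑ k, c k * (size i (B k) ε - (ρ k).inner θ)) ^ 2 ≤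
          N' ^ 2 * ∑ k, ∑ l, c k * c l * (ρ k).inner (ρ l) + η) ∧
      ∀ r : Fin n → ℤ, (∀ k, HasOrder i (B k) (r k)) →
        (∑ k, c k * (r k + (ρ k).inner θ)) ^ 2 ≤
          N' ^ 2 * ∑ k, ∑ l, c k * c l * (ρ k).inner (ρ l)) ∧
    ∀ δ : ℝ, 0 < δ → δ < 1 → ∃ (n : ℕ) (σ : Fin n → WRep K), n * δ ^ 2 ≤ N' ^ 2 ∧
      (∀ k, (σ k).IsIrr) ∧ (∀ k l, k ≠ l → (σ k).inner (σ l) = 0) ∧
      ∀ ρ : WRep K, ρ.IsIrr → (∀ k, ρ.inner (σ k) = 0) →
        ∀ B : HeightOneSpectrum (𝓞 K) → ℂ[X], IsTensor X i ρ B →
        (∃ᶠ ε : ℝ in 𝓝[>] 0, |size i B ε - ρ.inner θ| < δ) ∧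
        ∀ r : ℤ, HasOrder i B r → r = -ρ.inner θ := by
  refine ⟨fun n ρ B hB c => ⟨fun η hη => ?_, fun r hr => tensor_order hi hθ hB c hr⟩,
    fun δ hδ0 hδ1 => ?_⟩
  · exact (Filter.eventually_all.2 fun k => (tensor_size hi (hB k)).1).and
      (tensor_bound hi hθ hB c hη)
  · obtain ⟨n, σ, h1, h2, h3, h4⟩ := spectrum hi hθ (fun _ => True) hδ0 hδ1
    exact ⟨n, σ, h1, fun k => (h2 k).1, h3, fun ρ hρ hav B hB => h4 ρ hρ trivial hav B hB⟩

end Pool.Agent.Results.MP_1f4fc7_nt.HeckeSpectrum
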