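import Mathlib
import Pool.Agent.N534.TL.Main2

/-!
# `L₂(s)` near the whole line `Re s = 2` for most members of a linear system of surfaces

Let `X_c : ∑ c_i f_i = 0` run through the members of height at most `H` of a linear system of hypersurfaces of
degree `d` in `ℙ^{2m+1}` (surfaces for `m = 1`) which has a smooth member and separates points, and let `e` be the number of
the components of dimension `m` of its base locus. The starting result `LinearSystems` of this page is about the
real points `s = m + 1 + ε`, `1 / log H ≤ ε ≤ 1`: there the L-function of the middle cohomology of `X_c` behaves in mean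
square as if it had a pole of order `1 + e` at `s = m + 1`.

Tate's conjecture also says where there are no poles or zeros. Here the whole rectangle `s = m + 1 + ε + iτ`,
`1 / log H ≤ ε ≤ 1`, `|τ| ≤ T`, is treated: in mean square over the members, the supremum over the rectangle of
`| log |L(X_c, s)| - (1 + e) log |ζ(s - m)| |` is at most `(C (1 + T)) ^ (1/2)`, where `C` depends neither on `H` nor on
`T`. So for all members except for a proportion `δ` the quotient `L(X_c, s) / ζ(s - m) ^ (1 + e)` is bounded from above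
and from below, by a constant depending on `T / δ` only, in the whole rectangle: the pole of order `1 + e` at
`s = m + 1` is the only singularity on the line `Re s = m + 1` seen at the distance `1 / log H`.

The second part is the complete linear system of all forms of degree `d` in `2m + 2` variables (`e = 0`).

Proof. Up to `O(1)` the logarithm of the quotient is, in the mean over the members, a Dirichlet polynomial in `s` over
the primes `p ≤ H^{1/4}` whose coefficients are functions of `c` modulo `p` of mean `O(p^{-2})` and second moment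
`O(p^{-2})` (starting library, `Pool.Agent.Y722.LS`). It is an entire function of `s`, bounded in mean square also to
the left of the line; the supremum over a rectangle of height `T` is bounded by the square means over `O(1 + T)` fixed
circles by Cauchy's formula (`Pool/Agent/N534/TL`).
-/

set_option autoImplicit false

open Pool.Agent.Y722.HS Pool.Agent.Y722.LS

namespace Pool.Agent.Results.MP_1f4fc7_nt.NearTheWholeLine

/-- The L-functions of the middle cohomology of the members `∑ c i f i = 0`, `c` in the box of the vectors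
with integer coordinates of absolute value at most `H`, behave near the line `Re s = m + 1` like `ζ(s - m) ^ (1 + e)`:
(1) mean square of the error, at points which may depend on the member; (2) the error in the whole rectangle for all
members outside of an exceptional set of proportion `δ`. The constant depends neither on `H` nor on `T`. -/
def NearLine (m : ℕ) {ι : Type} [Fintype ι] [DecidableEq ι] (f : ι → MvPolynomial (Fin (2 * m + 2)) ℤ)
    (b : ℕ) (e : ℝ) : Prop :=
  ∃ C : ℝ, 0 < C ∧ ∀ H : ℕ, 2 ≤ H → ∀ T : ℝ, 0 ≤ T →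
    (∀ S ⊆ box ι H, ∀ (α : (ι → ℤ) → ℕ → Fin b → ℂ) (ε τ : (ι → ℤ) → ℝ),
      (∀ c ∈ S, IsFrobenius f b c (α c)) →
      (∀ c ∈ S, 1 / Real.log H ≤ ε c ∧ ε c ≤ 1 ∧ |τ c| ≤ T) →
      ∑ c ∈ S, (Real.log ‖LP (α c) (m + 1 + ε c + τ c * Complex.I)‖ -
        (1 + e) * Real.log ‖riemannZeta (1 + ε c + τ c * Complex.I)‖) ^ 2 ≤
          C * (1 + T) * (box ι H).card) ∧
    (∀ δ : ℝ, 0 < δ → ∃ E ⊆ box ι H, (E.card : ℝ) ≤ δ * (box ι H).card ∧
      ∀ c ∈ box ι H \ E, ∀ α : ℕ → Fin b → ℂ, IsFrobenius f b c α → ∀ ε τ : ℝ,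
        1 / Real.log H ≤ ε → ε ≤ 1 → |τ| ≤ T →
        LP α (m + 1 + ε + τ * Complex.I) ≠ 0 ∧
        |Real.log ‖LP α (m + 1 + ε + τ * Complex.I)‖ -
          (1 + e) * Real.log ‖riemannZeta (1 + ε + τ * Complex.I)‖| ≤ Real.sqrt (C * (1 + T) / δ))

/-- The monomials of degree `d` in `2 m + 2` variables. -/
noncomputable def monomials (m d : ℕ) (ν : Mon (2 * m + 1) d) : MvPolynomial (Fin (2 * m + 2)) ℤ :=
  ∏ i, MvPolynomial.X i ^ (ν.1 i : ℕ)

lemma near {m d : ℕ} (hd : 1 ≤ d) {ι : Type} [Fintype ι] [DecidableEq ι]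
    (f : ι → MvPolynomial (Fin (2 * m + 2)) ℤ) (hf : ∀ i, (f i).IsHomogeneous d)
    (c₀ : ι → ℤ) (hs : IsSmooth (lform (n := 2 * m + 1) f (fun i => (c₀ i : ℂ)))) (p₀ : ℕ)
    (hsep : ∀ p : ℕ, p.Prime → p₀ ≤ p → Separates (n := 2 * m + 1) f p) (e C₀ : ℝ)
    (hZ : ∀ p : ℕ, p.Prime → p₀ ≤ p → |zc f p - e * (p : ℝ) ^ m| ≤ C₀ * (p : ℝ) ^ ((m : ℝ) - 1 / 2))
    (b : ℕ) : NearLine m f b e := by
  classical
  obtain ⟨C, hC, h⟩ := Pool.Agent.N534.TL.majorant hd f hf c₀ hs p₀ hsep e C₀ hZ b
  refine ⟨C, hC, fun H hH T hT => ?_⟩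
  obtain ⟨M, hM0, hM1, hM2⟩ := h H hH T hT
  have hB : (0 : ℝ) < (2 * H + 1 : ℝ) ^ Fintype.card ι := by positivity
  have hsum : ∑ c ∈ box ι H, M c ≤ C * (1 + T) * (box ι H).card := by
    calc _ = EB H M * (box ι H).card := by
          rw [EB, card_box]
          field_simp
      _ ≤ _ := by gcongr
  refine ⟨fun S hS α ε τ hα hε => ?_, fun δ hδ => ?_⟩
  · calc _ ≤ ∑ c ∈ S, M c := Finset.sum_le_sum fun c hc =>
          hM2 c (α c) (ε c) (τ c) (hα c hc) (hε c hc).1 (hε c hc).2.1 (hε c hc).2.2
      _ ≤ ∑ c ∈ box ι H, M c := Finset.sum_le_sum_of_subset_of_nonneg hS fun c _ _ => hM0 c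
      _ ≤ _ := hsum
  · have hCT : 0 < C * (1 + T) := by positivity
    refine ⟨(box ι H).filter (fun c => C * (1 + T) / δ < M c), Finset.filter_subset _ _, ?_, ?_⟩
    · have h1 : (((box ι H).filter (fun c => C * (1 + T) / δ < M c)).card : ℝ) * (C * (1 + T) / δ) ≤
          ∑ c ∈ (box ι H).filter (fun c => C * (1 + T) / δ < M c), M c := by
        rw [← nsmul_eq_mul]
        exact Finset.card_nsmul_le_sum _ _ _ fun c hc => (Finset.mem_filter.mp hc).2.le
      have h2 : ∑ c ∈ (box ι H).filter (fun c => C * (1 + T) / δ < M c), M c ≤ ∑ c ∈ box ι H, M c :=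
        Finset.sum_le_sum_of_subset_of_nonneg (Finset.filter_subset _ _) fun c _ _ => hM0 c
      have h3 := (h1.trans h2).trans hsum
      rw [mul_div_assoc', div_le_iff₀ hδ] at h3
      have h4 : (C * (1 + T)) * (((box ι H).filter (fun c => C * (1 + T) / δ < M c)).card : ℝ) ≤
          (C * (1 + T)) * (δ * (box ι H).card) := by linarith
      exact le_of_mul_le_mul_left h4 hCT
    · intro c hc α hα ε τ hε0 hε1 hτ
      rw [Finset.mem_sdiff, Finset.mem_filter, not_and, not_lt] at hc
      have h1 := hM2 c α ε τ hα hε0 hε1 hτ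
      have h2 := h1.trans (hc.2 hc.1)
      refine ⟨?_, Real.abs_le_sqrt h2⟩
      have hlogH : 0 < Real.log H := Real.log_pos (by exact_mod_cast (by omega : 1 < H))
      have hεp : 0 < ε := lt_of_lt_of_le (by positivity) hε0
      have hs1 : ss (2 * m + 1) ε = (m : ℂ) + 1 + ε := by
        unfold ss
        push_cast
        ring
      have hbound : ∀ p : ℕ, p.Prime → ∀ j,
          ‖Pool.Agent.N534.TL.twist α τ p j‖ ≤ (p : ℝ) ^ ((((2 * m + 1 : ℕ) : ℝ) - 1) / 2) := by
        intro p hp j
        have e : (((2 * m + 1 : ℕ) : ℝ) - 1) / 2 = (m : ℝ) := by push_cast; ring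
        rw [e, Real.rpow_natCast, Pool.Agent.N534.TL.twist_norm α τ p hp]
        exact hα.bound p hp j
      rw [← hs1, ← Pool.Agent.N534.TL.LP_twist, LP_eq hεp hbound]
      exact Complex.exp_ne_zero _

lemma aeval_monomials {m d : ℕ} {R : Type*} [CommRing R] (ν : Mon (2 * m + 1) d) (x : Fin (2 * m + 2) → R) :
    MvPolynomial.aeval x (monomials m d ν) = mev x ν := by
  unfold monomials mev
  rw [map_prod]
  refine Finset.prod_congr rfl fun i _ => ?_
  rw [map_pow, MvPolynomial.aeval_X]

lemma lval_monomials {m d : ℕ} {R : Type*} [CommRing R] (c : Mon (2 * m + 1) d → R)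
    (x : Fin (2 * m + 2) → R) : lval (n := 2 * m + 1) (monomials m d) c x = val c x := by
  unfold lval val
  exact Finset.sum_congr rfl fun ν _ => by rw [aeval_monomials]

lemma lform_monomials {m d : ℕ} {R : Type*} [CommRing R] (c : Mon (2 * m + 1) d → R) :
    lform (n := 2 * m + 1) (monomials m d) c = form c := by
  unfold lform form monomials
  refine Finset.sum_congr rfl fun ν _ => ?_
  rw [map_prod]
  simp

/-- The vector of the exponents of `x_i ^ d`. -/
lemma exists_pow {m d : ℕ} (k : Fin (2 * m + 2)) :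
    ∃ ν : Mon (2 * m + 1) d, ∀ i, (ν.1 i : ℕ) = if i = k then d else 0 :=
  ⟨mkMon (fun i => if i = k then d else 0) (by simp), fun i => rfl⟩

/-- The complete linear system has a smooth member (Fermat). -/
lemma smooth_fermat {m d : ℕ} (hd : 1 ≤ d) : ∃ c₀ : Mon (2 * m + 1) d → ℤ,
    IsSmooth (lform (n := 2 * m + 1) (monomials m d) (fun i => (c₀ i : ℂ))) := by
  classical
  choose ν hν using fun k => exists_pow (m := m) (d := d) k
  have hinj : Function.Injective ν := by
    intro a b hab
    by_contra hne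
    have h1 := hν a a
    have h2 := hν b a
    rw [hab, if_pos rfl] at h1
    rw [if_neg hne] at h2
    omega
  refine ⟨fun μ => if μ ∈ Finset.univ.image ν then 1 else 0, ?_⟩
  have hF : lform (n := 2 * m + 1) (monomials m d)
      (fun i => (((if i ∈ Finset.univ.image ν then 1 else 0 : ℤ)) : ℂ)) =
      ∑ k : Fin (2 * m + 2), (MvPolynomial.X k : MvPolynomial (Fin (2 * m + 2)) ℂ) ^ d := by
    rw [lform_monomials]
    unfold form
    have h1 : ∀ k : Fin (2 * m + 2), (∏ i, (MvPolynomial.X i : MvPolynomial (Fin (2 * m + 2)) ℂ) ^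
        ((ν k).1 i : ℕ)) = MvPolynomial.X k ^ d := by
      intro k
      rw [Finset.prod_eq_single k]
      · rw [hν k k, if_pos rfl]
      · intro i _ hi
        rw [hν k i, if_neg hi, pow_zero]
      · intro h
        exact absurd (Finset.mem_univ _) h
    rw [← Finset.sum_subset (Finset.subset_univ (Finset.univ.image ν))]
    · rw [Finset.sum_image fun a _ b _ h => hinj h]
      refine Finset.sum_congr rfl fun k _ => ?_
      rw [h1]
      beta_reduce
      rw [if_pos (Finset.mem_image_of_mem ν (Finset.mem_univ k))]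
      simp
    · intro μ _ hμ
      beta_reduce
      rw [if_neg hμ]
      simp
  intro x hx _
  obtain ⟨k, hk⟩ : ∃ i, x i ≠ 0 := Function.ne_iff.mp hx
  refine ⟨k, ?_⟩
  rw [hF, map_sum, map_sum, Finset.sum_eq_single k]
  · rw [MvPolynomial.pderiv_pow, MvPolynomial.pderiv_X_self]
    simp only [map_mul, map_natCast, map_pow, MvPolynomial.eval_X, mul_one]
    have hd0 : ((d : ℕ) : ℂ) ≠ 0 := by exact_mod_cast (by omega : d ≠ 0)
    exact mul_ne_zero hd0 (pow_ne_zero _ hk)
  · intro i _ hi
    rw [MvPolynomial.pderiv_pow, MvPolynomial.pderiv_X_of_ne hi]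
    simp
  · intro h
    exact absurd (Finset.mem_univ _) h

lemma complete {m d : ℕ} (hd : 1 ≤ d) (b : ℕ) : NearLine m (monomials m d) b 0 := by
  classical
  obtain ⟨c₀, hs⟩ := smooth_fermat (m := m) hd
  have hne : ∀ (p : ℕ) [Fact p.Prime] (x : Fin (2 * m + 2) → ZMod p), x ≠ 0 →
      ∃ ν : Mon (2 * m + 1) d, MvPolynomial.aeval x (monomials m d ν) ≠ 0 := by
    intro p _ x hx
    obtain ⟨k, hk⟩ : ∃ i, x i ≠ 0 := Function.ne_iff.mp hx
    obtain ⟨ν, hν⟩ := exists_pow (m := m) (d := d) k
    refine ⟨ν, ?_⟩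
    rw [aeval_monomials]
    unfold mev
    rw [Finset.prod_eq_single k]
    · rw [hν k, if_pos rfl]
      exact pow_ne_zero _ hk
    · intro i _ hi
      rw [hν i, if_neg hi, pow_zero]
    · intro h
      exact absurd (Finset.mem_univ _) h
  refine near hd (monomials m d) (fun ν => ?_) c₀ hs 0 ?_ 0 0 ?_ b
  · unfold monomials
    have h1 := MvPolynomial.IsHomogeneous.prod Finset.univ
      (fun i : Fin (2 * m + 2) => (MvPolynomial.X i : MvPolynomial (Fin (2 * m + 2)) ℤ) ^ (ν.1 i : ℕ))
      (fun i => (ν.1 i : ℕ)) (fun i _ => by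
        have := (MvPolynomial.isHomogeneous_X ℤ i).pow (ν.1 i : ℕ)
        rwa [one_mul] at this)
    rwa [ν.2] at h1
  · intro p hp _ x y hxy hx
    have := Fact.mk hp
    obtain ⟨i, j, hij⟩ := hxy
    have hx0 : x ≠ 0 := by
      rintro rfl
      simp at hij
    obtain ⟨c, hc1, hc2⟩ := exists_val_pair hd x y hx0 i j hij 1
    refine ⟨c, ?_, ?_⟩
    · rw [eval_lform, lval_monomials, hc1]
      exact one_ne_zero
    · rw [eval_lform, lval_monomials, hc2]
  · intro p hp _
    have := Fact.mk hp
    have h1 : bcone (n := 2 * m + 1) (monomials m d) p = 0 := by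
      unfold bcone
      rw [Nat.card_eq_zero]
      left
      refine ⟨fun x => ?_⟩
      obtain ⟨ν, hν⟩ := hne p x.1 x.2.1
      exact hν (x.2.2 ν)
    unfold zc
    rw [h1]
    simp

/-- **Near the whole line.** (1) All linear systems with a smooth member which separate the points outside of the
base locus, where `e` is the number of the components of dimension `m` of the base locus (in the form of the estimate
of Lang and Weil). (2) All forms of degree `d` in `2 m + 2` variables. -/
theorem result :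
    (∀ (m d : ℕ), 1 ≤ d → ∀ (ι : Type) [Fintype ι] [DecidableEq ι]
      (f : ι → MvPolynomial (Fin (2 * m + 2)) ℤ), (∀ i, (f i).IsHomogeneous d) →
      ∀ c₀ : ι → ℤ, IsSmooth (lform (n := 2 * m + 1) f (fun i => (c₀ i : ℂ))) → ∀ p₀ : ℕ,
      (∀ p : ℕ, p.Prime → p₀ ≤ p → Separates (n := 2 * m + 1) f p) → ∀ e C₀ : ℝ,
      (∀ p : ℕ, p.Prime → p₀ ≤ p → |zc f p - e * (p : ℝ) ^ m| ≤ C₀ * (p : ℝ) ^ ((m : ℝ) - 1 / 2)) →
      ∀ b : ℕ, NearLine m f b e) ∧
    (∀ m d b : ℕ, 1 ≤ d → NearLine m (monomials m d) b 0) :=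
  ⟨fun _ _ hd _ _ _ f hf c₀ hs p₀ hsep e C₀ hZ b => near hd f hf c₀ hs p₀ hsep e C₀ hZ b,
    fun _ _ b hd => complete hd b⟩

end Pool.Agent.Results.MP_1f4fc7_nt.NearTheWholeLine
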