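import Pool.Agent.N842.TR.Fin

/-!
# The poles of the L-functions of the products `V × Z` of almost all products `V` of powers of superelliptic curves over a number field
with arbitrary varieties `Z`

Let `K` be a number field which contains the roots of unity of order `l` for a prime number `l` (this is no condition for `l = 2`), let
`C_c : Y ^ l = f_c(X)` (`c < N`) be curves over `K` with monic polynomials `f_c` of degree `D` prime to `l` (for `l = 2` these are
hyperelliptic curves of genus `(D - 1) / 2`) and let `V = ∏ C_c ^ (n_c)` with `n_c ≤ D`.  The coefficients of the `f_c` are linear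
combinations of the elements `ω_j` of `𝓞 K` with integral coefficients which arise from arbitrary integers by changing a few digits.

The L-function of `H ^ (2 j) (V) (j)` should have at `s = 1` a pole of the order `rank A ^ j (V)`, which for almost all curves is the
number `rank n l j` of this file, the coefficient of `X ^ j` in `∏ (∑ i, (n_c choose 2 i) (2 i - 1)!! (l - 1) ^ i X ^ i (1 + X) ^ (n_c - 2 i))`;
for instance `rank n l 0 = 1` and `rank n l 1 = ∑ n_c + (l - 1) ∑ (n_c choose 2)`.  More generally for a variety `Z` over `K` the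
L-function of `H ^ (2 i) (V × Z) (i)` should, for almost all curves, behave at `s = 1` as the product over `j ≤ i` of the powers with the
exponents `rank n l j` of the L-functions of `H ^ (2 (i - j)) (Z) (i - j)`.  In the case of `i = 1` (Tate's conjecture on the pole of `L_2`)
these are `L_2(s + 1, Z)` and the zeta function of `K` with the exponent `rank n l 1`; if `Z` is a point it is the zeta function of `K` with
the exponent `rank n l i`.

The variety `Z` enters only through the numbers `z e v k`, the traces of the `k`-th powers of the normalised Frobenius automorphisms on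
`H ^ e (Z)` at the prime ideals `v` (`0` at the prime ideals of bad reduction), and these numbers can be arbitrary.
-/

set_option autoImplicit false

namespace Pool.Agent.Results.MP_1f4fc7_nt.ProductsWithVarieties

open Finset NumberField IsDedekindDomain
open scoped Nat

/-- The elements `∑ m_(i,j) ω_j` of `𝓞 K`. -/
def coeff {R : Type} [CommRing R] {g D : ℕ} (ω : Fin g → R) (m : Fin (D * g) → ℕ) (i : Fin D) : R :=
  ∑ j, (m (finProdFinEquiv (i, j)) : R) * ω j

/-- The number of the solutions of `Y ^ l = X ^ D + u (D - 1) X ^ (D - 1) + ... + u 0` in the field `F`. -/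
noncomputable def points (F : Type) [Field F] (l : ℕ) {D : ℕ} (u : Fin D → F) : ℕ :=
  Nat.card {P : F × F // P.2 ^ l = P.1 ^ D + ∑ i, u i * P.1 ^ (i : ℕ)}

/-- The characteristic of `F` is not `l` and the polynomial `X ^ D + u (D - 1) X ^ (D - 1) + ... + u 0` over `F` is separable, so that the
curve `C : Y ^ l = X ^ D + u (D - 1) X ^ (D - 1) + ... + u 0` is smooth. -/
def Smooth (F : Type) [Field F] (l : ℕ) {D : ℕ} (u : Fin D → F) : Prop :=
  (l : F) ≠ 0 ∧ (Polynomial.X ^ D + ∑ i, Polynomial.C (u i) * Polynomial.X ^ (i : ℕ)).Separable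

open Classical in
/-- For a field `F` with `q` elements the number `(q + 1 - #C(F)) / q ^ (1 / 2)` (there is one point at infinity), that is, the trace of
the normalised Frobenius automorphism on `H ^ 1 (C)`; `0` if the curve is not smooth. -/
noncomputable def a (F : Type) [Field F] (l : ℕ) {D : ℕ} (u : Fin D → F) : ℝ :=
  if Smooth F l u then ((Nat.card F : ℝ) + 1 - ((points F l u : ℝ) + 1)) / Real.sqrt (Nat.card F) else 0

/-- The extension of degree `k` of the finite field `F`: the splitting field of `X ^ (q ^ k) - X`, where `q` is the number of the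
elements of `F`. -/
def Ext (F : Type) [Field F] (k : ℕ) : Type := (Polynomial.X ^ (Nat.card F ^ k) - Polynomial.X : Polynomial F).SplittingField

noncomputable instance (F : Type) [Field F] (k : ℕ) : Field (Ext F k) :=
  inferInstanceAs (Field (Polynomial.X ^ (Nat.card F ^ k) - Polynomial.X : Polynomial F).SplittingField)

noncomputable instance (F : Type) [Field F] (k : ℕ) : Algebra F (Ext F k) :=
  inferInstanceAs (Algebra F (Polynomial.X ^ (Nat.card F ^ k) - Polynomial.X : Polynomial F).SplittingField)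

section
variable {K : Type} [Field K] [NumberField K]

/-- The residue field at the prime ideal `v`. -/
def Residue (v : HeightOneSpectrum (𝓞 K)) : Type := 𝓞 K ⧸ v.asIdeal

noncomputable instance (v : HeightOneSpectrum (𝓞 K)) : Field (Residue v) :=
  haveI : v.asIdeal.IsMaximal := v.isMaximal
  Ideal.Quotient.field v.asIdeal

/-- The reduction modulo `v`. -/
noncomputable def reduction (v : HeightOneSpectrum (𝓞 K)) : 𝓞 K →+* Residue v := Ideal.Quotient.mk v.asIdeal

/-- The trace of the `k`-th power of the normalised Frobenius automorphism at `v` on `H ^ 1` of the curve with the coefficients `u`. -/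
noncomputable def t (l k : ℕ) (v : HeightOneSpectrum (𝓞 K)) {D : ℕ} (u : Fin D → 𝓞 K) : ℝ :=
  a (Ext (Residue v) k) l (fun i => algebraMap (Residue v) (Ext (Residue v) k) (reduction v (u i)))

/-- The reductions of the curves with the coefficients `u c` modulo `v` are smooth. -/
def Good (l : ℕ) (v : HeightOneSpectrum (𝓞 K)) {N D : ℕ} (u : Fin N → Fin D → 𝓞 K) : Prop :=
  ∀ c, Smooth (Residue v) l (fun i => reduction v (u c i))

/-- The trace of the `k`-th power of the normalised Frobenius automorphism at `v` on `H ^ d (V)` for the product `V` of the powers `n c` of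
the curves with the coefficients `u c`, by the formula of Künneth. -/
noncomputable def trace {N : ℕ} (n : Fin N → ℕ) (l d k : ℕ) (v : HeightOneSpectrum (𝓞 K)) {D : ℕ} (u : Fin N → Fin D → 𝓞 K) : ℝ :=
  (∏ c, (1 + Polynomial.C (t l k v (u c)) * Polynomial.X + Polynomial.X ^ 2 : Polynomial ℝ) ^ n c).coeff d

open Classical in
/-- The trace of the `k`-th power of the Frobenius automorphism at `v` on `H ^ (2 i) (V × Z) (i)`, by the formula of Künneth; it is `0` if
one of the curves does not have a smooth reduction modulo `v`. -/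
noncomputable def traceProduct {N : ℕ} (n : Fin N → ℕ) (l i k : ℕ) (v : HeightOneSpectrum (𝓞 K)) {D : ℕ} (u : Fin N → Fin D → 𝓞 K)
    (z : ℕ → HeightOneSpectrum (𝓞 K) → ℕ → ℝ) : ℝ :=
  if Good l v u then ∑ e ∈ range (2 * i + 1), trace n l (2 * i - e) k v u * z e v k else 0

/-- The exponential of the sum, over all prime ideals `v` and all `k ≥ 1`, of the numbers `b v k * (N v) ^ (-k s) / k`: the L-function of
the motive of weight `0` for which `b v k` is the trace of the `k`-th power of the Frobenius automorphism at `v`. -/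
noncomputable def L (b : HeightOneSpectrum (𝓞 K) → ℕ → ℝ) (s : ℝ) : ℝ :=
  Real.exp (∑' v : HeightOneSpectrum (𝓞 K), ∑' k : ℕ,
    b v (k + 1) * (((Ideal.absNorm v.asIdeal : ℕ) : ℝ) ^ (-(((k : ℝ) + 1) * s)) / ((k : ℝ) + 1)))

end

/-- The expected rank of the group of the classes of the algebraic cycles of codimension `i` on `V`. -/
noncomputable def rank {N : ℕ} (n : Fin N → ℕ) (l i : ℕ) : ℕ :=
  (∏ c, ∑ j ∈ range (n c / 2 + 1), ((((n c).choose (2 * j)) * (2 * j - 1)‼ * (l - 1) ^ j : ℕ) : Polynomial ℕ) * Polynomial.X ^ j *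
    (1 + Polynomial.X) ^ (n c - 2 * j)).coeff i

/-- For all `i ≤ I` and all `z ∈ Z` the L-function of `H ^ (2 i) (V × Z) (i)` is equal, up to a constant `Λ > 0` and the factor `1 ± ε`,
to the product over `j ≤ i` of the powers with the exponents `rank n l j` of the L-functions of `H ^ (2 (i - j)) (Z) (i - j)`, for all the
real numbers `s > 1` with `M / r j ≤ s - 1` for all `j` and `s - 1 ≤ 1 / (M log y)`. -/
def Factorises {K : Type} [Field K] [NumberField K] {g : ℕ} (ω : Fin g → 𝓞 K) (l D : ℕ) {N : ℕ} (n : Fin N → ℕ) (ε M : ℝ) (I y : ℕ)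
    (Z : Set (ℕ → HeightOneSpectrum (𝓞 K) → ℕ → ℝ)) (r : Fin (N * D * g) → ℕ) (m : Fin (N * D * g) → ℕ) : Prop :=
  ∀ i ≤ I, ∀ z ∈ Z, ∃ Λ : ℝ, 0 < Λ ∧ ∀ s : ℝ, 1 < s → (∀ j, M ≤ (s - 1) * r j) → M * ((s - 1) * Real.log y) ≤ 1 →
    let F : ℝ := Λ * ∏ j ∈ range (i + 1), L (z (2 * (i - j))) s ^ rank n l j
    |L (fun v k => traceProduct n l i k v (fun (c : Fin N) (k : Fin D) => coeff ω m (finProdFinEquiv (c, k))) z) s - F| ≤ ε * F

/-- The digit number `i` (counted from the right, beginning with `0`) of `n` in base `b`. -/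
def digit (b i n : ℕ) : ℕ := n / b ^ i % b

/-- The number which arises from the number `N` with at most `L` digits in base `b`, if for every `i ∈ S`
the digit number `i` is replaced by `f i`. -/
def change (b L N : ℕ) (f : ℕ → ℕ) (S : Finset ℕ) : ℕ :=
  ∑ i ∈ range L, (if i ∈ S then f i else digit b i N) * b ^ i

open Classical in
/-- The number of the choices of `r j` of `L j` positions for all `j` for which the tuple of the numbers obtained by
changing the digits of the `N j` at the chosen positions (according to `f j`) does not have the property `E`. -/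
noncomputable def exceptions {d : ℕ} (b : ℕ) (L r N : Fin d → ℕ) (f : Fin d → ℕ → ℕ) (E : (Fin d → ℕ) → Prop) : ℕ :=
  ((Fintype.piFinset (fun j => powersetCard (r j) (range (L j)))).filter
    (fun S => ¬ E (fun j => change b (L j) (N j) (f j) (S j)))).card

lemma exc_eq {d : ℕ} (b : ℕ) (L r N : Fin d → ℕ) (f : Fin d → ℕ → ℕ) (E : (Fin d → ℕ) → Prop) :
    exceptions b L r N f E = Pool.Agent.Y57.FD.exceptions b L r N f E := rfl

lemma a_eq (F : Type) [Field F] (l : ℕ) {D : ℕ} (u : Fin D → F) : a F l u = Pool.Agent.N842.SQ.val F l u := by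
  classical
  unfold a Pool.Agent.N842.SQ.val
  by_cases h : Smooth F l u
  · rw [if_pos h, if_pos (show Pool.Agent.N842.SQ.Smooth F l u from h)]
    congr 1
    show (Nat.card F : ℝ) + 1 - ((Pool.Agent.N842.SQ.points F l u : ℝ) + 1) = _
    ring
  · rw [if_neg h, if_neg (show ¬ Pool.Agent.N842.SQ.Smooth F l u from h)]

section
variable {K : Type} [Field K] [NumberField K]

attribute [local instance] Pool.Agent.N842.SQ.rsFin Pool.Agent.N842.SQ.exFin

lemma t_eq (l k : ℕ) (hk : k ≠ 0) (v : HeightOneSpectrum (𝓞 K)) {D : ℕ} (u : Fin D → 𝓞 K) :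
    t l k v u = - Pool.Agent.N842.SQ.A l D k (Pool.Agent.N842.SQ.Rs v) (fun i => Pool.Agent.N842.SQ.rh v (u i)) := by
  obtain ⟨p, f, hp, hf, hpf, hpv⟩ := Pool.Agent.N842.HS.res_char v
  have hp' : Fact p.Prime := ⟨hp⟩
  have hch : CharP (Pool.Agent.N842.SQ.Rs v) p := Pool.Agent.N842.SQ.rsChar p ⟨v, hpv⟩
  have hch2 : CharP (Pool.Agent.N842.SQ.Ex (Pool.Agent.N842.SQ.Rs v) k) p :=
    charP_of_injective_algebraMap (algebraMap (Pool.Agent.N842.SQ.Rs v) (Pool.Agent.N842.SQ.Ex (Pool.Agent.N842.SQ.Rs v) k)).injective p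
  have h1 := Pool.Agent.N842.SQ.val_hom p (Pool.Agent.N842.SQ.Rs v) (Pool.Agent.N842.SQ.Ex (Pool.Agent.N842.SQ.Rs v) k)
    (algebraMap (Pool.Agent.N842.SQ.Rs v) (Pool.Agent.N842.SQ.Ex (Pool.Agent.N842.SQ.Rs v) k)) l (fun i => Pool.Agent.N842.SQ.rh v (u i))
  have h2 : Pool.Agent.N842.SQ.dg p (Pool.Agent.N842.SQ.Ex (Pool.Agent.N842.SQ.Rs v) k) / Pool.Agent.N842.SQ.dg p (Pool.Agent.N842.SQ.Rs v) = k := by
    have h3 := (Pool.Agent.N842.SQ.card_dg p (Pool.Agent.N842.SQ.Rs v))
    have h4 := (Pool.Agent.N842.SQ.card_dg p (Pool.Agent.N842.SQ.Ex (Pool.Agent.N842.SQ.Rs v) k)).1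
    rw [Pool.Agent.N842.SQ.card_ex _ k hk, h3.1, ← pow_mul] at h4
    rw [← Nat.pow_right_injective hp.two_le h4]
    exact Nat.mul_div_cancel_left _ (by omega)
  rw [h2] at h1
  rw [← h1]
  unfold t
  rw [a_eq]
  rfl

lemma L_prod {N : ℕ} (n : Fin N → ℕ) (l i : ℕ) {D : ℕ} (c : Fin (N * D) → 𝓞 K) (z : ℕ → HeightOneSpectrum (𝓞 K) → ℕ → ℝ) (s : ℝ) :
    L (fun v k => traceProduct n l i k v (fun (e : Fin N) (k : Fin D) => c (finProdFinEquiv (e, k))) z) s =
      Real.exp (∑' v : HeightOneSpectrum (𝓞 K), Pool.Agent.N842.TR.dz (Pool.Agent.N842.TR.bV n l c z i) s v) := by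
  unfold L Pool.Agent.N842.TR.dz
  congr 1
  refine tsum_congr fun v => tsum_congr fun k => ?_
  have h1 : traceProduct n l i (k + 1) v (fun (e : Fin N) (k : Fin D) => c (finProdFinEquiv (e, k))) z = Pool.Agent.N842.TR.bV n l c z i v (k + 1) := by
    unfold traceProduct Pool.Agent.N842.TR.bV Pool.Agent.N842.TQ.To
    by_cases h : Good l v (fun (e : Fin N) (k : Fin D) => c (finProdFinEquiv (e, k)))
    · have h' : Pool.Agent.N842.TP.good l v c := h
      rw [if_pos h]
      refine sum_congr rfl fun e _ => ?_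
      rw [if_pos h']
      congr 1
      unfold trace Pool.Agent.N842.TP.Pl
      congr 1
      refine prod_congr rfl fun e _ => ?_
      rw [t_eq l (k + 1) (by omega) v]
    · have h' : ¬ Pool.Agent.N842.TP.good l v c := h
      rw [if_neg h]
      symm
      apply sum_eq_zero
      intro e _
      rw [if_neg h', zero_mul]
  beta_reduce
  rw [h1]
  rfl

end

/-- Let `K` be a number field, `l` a prime number such that `K` contains the roots of unity of order `l`, `D` a degree prime to `l`,
`ω_0, ..., ω_(g-1)` elements of `𝓞 K` with `1` in the group generated by them, let `n_c ≤ D` (`c < N`), a base `b ≥ 2`, `ε > 0`, `ρ > 0`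
and integers `A, B, I ≥ 0` be given, and let `N D g ≥ 1`.  There are `M > 0` and `y₀` such that for all integers `r j`, `L j`
(`j < N D g`), `y` with `2 r j ≤ L j` and `y ≥ y₀` the following holds.

Let `0 ≤ N' j < b ^ L j` be arbitrary integers, prescribe for every position `i` a digit `f j i` different from the digit of
`N' j` in base `b`, and let `Z` be an arbitrary set of at most `y ^ B` systems `z` of real numbers `z e v k` with `|z e v k| ≤ ρ` (for
instance the traces of the powers of the normalised Frobenius automorphisms on `H ^ e`, for varieties over `K` with Betti numbers at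
most `ρ`).  If one chooses `r j` of the `L j` positions and replaces the digits of `N' j` at these positions, then for all but at
most a proportion `1 / y ^ A` of the choices the product `V` of the powers `n_c` of the `N` curves `Y ^ l = f_c(X)` over `K` given by the
numbers `m j` obtained has the following property: for all `i ≤ I` and all `z ∈ Z` there is `Λ > 0` such that the L-function of
`H ^ (2 i) (V × Z) (i)` is `Λ (1 ± ε)` times the product over `j ≤ i` of the powers with the exponents `rank n l j` of the L-functions of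
`H ^ (2 (i - j)) (Z) (i - j)`, for all `s > 1` with `M / r j ≤ s - 1` for all `j` and `s - 1 ≤ 1 / (M log y)`. -/
theorem result (K : Type) [Field K] [NumberField K] (g l D N b : ℕ) (ω : Fin g → 𝓞 K)
    (hω : (1 : 𝓞 K) ∈ Submodule.span ℤ (Set.range ω)) (hl : l.Prime) (hζ : ∃ ζ : K, IsPrimitiveRoot ζ l) (hD : Nat.Coprime D l)
    (hd : 1 ≤ N * D * g) (hb : 2 ≤ b) (n : Fin N → ℕ) (hn : ∀ c, n c ≤ D) (ε : ℝ) (hε : 0 < ε) (ρ : ℝ) (hρ : 0 < ρ) (A B I : ℕ) :
    ∃ M : ℝ, 0 < M ∧ ∃ y₀ : ℕ, ∀ (L r : Fin (N * D * g) → ℕ) (y : ℕ), (∀ j, 2 * r j ≤ L j) → y₀ ≤ y →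
    ∀ N' : Fin (N * D * g) → ℕ, (∀ j, N' j < b ^ L j) →
    ∀ f : Fin (N * D * g) → ℕ → ℕ, (∀ j i, f j i < b ∧ f j i ≠ digit b i (N' j)) →
    ∀ Z : Set (ℕ → HeightOneSpectrum (𝓞 K) → ℕ → ℝ), Z.Finite → Z.ncard ≤ y ^ B → (∀ z ∈ Z, ∀ e v k, |z e v k| ≤ ρ) →
      (exceptions b L r N' f (Factorises ω l D n ε M I y Z r) : ℝ) ≤ 1 / (y : ℝ) ^ A * ∏ j, ((L j).choose (r j) : ℝ) := by
  classical
  obtain ⟨M, hM, y₀, h⟩ := Pool.Agent.N842.TR.polesZ K b g l N D ω hω hl hζ hD hb hd n hn ε hε ρ hρ A B I
  refine ⟨M, hM, y₀, fun L r y hrL hy N' hN' f hf Z hZ hZ2 hZ1 => ?_⟩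
  rw [exc_eq]
  refine h L r y hrL hy N' hN' f hf Z hZ hZ2 hZ1 _ fun m hm i hi z hz => ?_
  obtain ⟨Λ, hΛ, hs⟩ := hm i hi z hz
  refine ⟨Λ, hΛ, fun s h1 h2 h3 => ?_⟩
  have h4 := hs s h1 h2 h3
  rw [← L_prod] at h4
  exact h4

end Pool.Agent.Results.MP_1f4fc7_nt.ProductsWithVarieties
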